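import Pool.Agent.Helper6.EC_B.Goals

/-!
# Packet KSQ (MP_ecc237_nt, Part B): `K(t)²` as a superposition of `K`
-/

open MeasureTheory Filter Topology Set

noncomputable section

namespace EC237.PB.PkKSQ

/-- The integrand of `K`, on the whole line. -/
def g (t x : ℝ) : ℝ := Real.exp (-(t * Real.cosh x))

theorem g_cont (t : ℝ) : Continuous (g t) := by
  unfold g
  fun_prop

theorem g_pos (t x : ℝ) : 0 < g t x := Real.exp_pos _

theorem sq_div_four_le_cosh (x : ℝ) : x ^ 2 / 4 ≤ Real.cosh x := by
  rw [← Real.cosh_abs, Real.cosh_eq]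
  have h1 := Real.quadratic_le_exp_of_nonneg (abs_nonneg x)
  have h2 := Real.exp_pos (-|x|)
  have h3 := sq_abs x
  have h4 := abs_nonneg x
  nlinarith

theorem g_int {t : ℝ} (ht : 0 < t) : Integrable (g t) := by
  have h1 : Integrable (fun x : ℝ => Real.exp (-(t / 4) * x ^ 2)) :=
    integrable_exp_neg_mul_sq (by positivity)
  refine h1.mono' (g_cont t).aestronglyMeasurable (Eventually.of_forall fun x => ?_)
  rw [Real.norm_of_nonneg (g_pos t x).le]
  unfold g
  apply Real.exp_le_exp.2
  have := sq_div_four_le_cosh x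
  nlinarith

theorem int_g (t : ℝ) : ∫ x, g t x = 2 * Kb t := by
  have h1 := integral_comp_abs (f := g t)
  have h2 : ∀ x, g t |x| = g t x := by
    intro x; unfold g; rw [Real.cosh_abs]
  simp only [h2] at h1
  rw [h1]
  rfl

theorem g_mul (t u v : ℝ) : g t (v - u / 2 + u) * g t (v - u / 2) =
    g (2 * t * Real.cosh (u / 2)) v := by
  unfold g
  rw [← Real.exp_add]
  congr 1
  have h1 : v - u / 2 + u = v + u / 2 := by ring
  rw [h1, Real.cosh_add, Real.cosh_sub]
  ring

theorem shear_int {t : ℝ} (ht : 0 < t) :
    Integrable (fun p : ℝ × ℝ => g t (p.1 + p.2) * g t p.1) := by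
  have h1 : Integrable (fun p : ℝ × ℝ => g t p.1 * g t p.2) := (g_int ht).mul_prod (g_int ht)
  have h2 := measurePreserving_prod_add (volume : Measure ℝ) (volume : Measure ℝ)
  have h3 := h2.integrable_comp_of_integrable h1
  refine h3.congr (Eventually.of_forall fun p => ?_)
  simp only [Function.comp]
  ring

theorem thm : G_KSQ := by
  intro t ht
  have hS := shear_int ht
  have hin : ∀ u : ℝ, ∫ y, g t (y + u) * g t y = 2 * Kb (2 * t * Real.cosh (u / 2)) := by
    intro u
    have h1 := integral_sub_right_eq_self (μ := (volume : Measure ℝ))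
      (fun y => g t (y + u) * g t y) (u / 2)
    rw [← h1]
    simp only [g_mul]
    exact int_g _
  -- integrability
  have hI : Integrable (fun u : ℝ => 2 * Kb (2 * t * Real.cosh (u / 2))) := by
    have h1 := hS.integral_prod_right
    simp only [hin] at h1
    exact h1
  have hI2 : Integrable (fun u : ℝ => Kb (2 * t * Real.cosh (u / 2))) := by
    have := hI.const_mul (1 / 2)
    refine this.congr (Eventually.of_forall fun u => ?_)
    simp only
    ring
  refine ⟨hI2.integrableOn, ?_⟩
  have hA : ∫ u : ℝ, 2 * Kb (2 * t * Real.cosh (u / 2)) = (2 * Kb t) * (2 * Kb t) := by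
    calc ∫ u : ℝ, 2 * Kb (2 * t * Real.cosh (u / 2))
        = ∫ u : ℝ, ∫ y, g t (y + u) * g t y := by simp only [hin]
      _ = ∫ y, ∫ u : ℝ, g t (y + u) * g t y := by
          exact (integral_integral_swap hS).symm
      _ = ∫ y, (2 * Kb t) * g t y := by
          refine integral_congr_ae (Eventually.of_forall fun y => ?_)
          simp only
          rw [integral_mul_const, integral_add_left_eq_self (g t) y, int_g]
      _ = (2 * Kb t) * (2 * Kb t) := by
          rw [integral_const_mul, int_g]
  have hE := integral_comp_abs (f := fun u : ℝ => 2 * Kb (2 * t * Real.cosh (u / 2)))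
  have h2 : ∀ u : ℝ, Real.cosh (|u| / 2) = Real.cosh (u / 2) := by
    intro u
    have : |u| / 2 = |u / 2| := by rw [abs_div]; norm_num
    rw [this, Real.cosh_abs]
  simp only [h2] at hE
  rw [hA, integral_const_mul] at hE
  linarith

end EC237.PB.PkKSQ
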